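import Pool.Agent.Helper86.Poly.Goals

/-! Packet BL: the blow-up lemma. -/

set_option autoImplicit false

namespace Pool.Agent.Helper77.Poly

open Pool.Agent.Helper86.Poly MeasureTheory Set

namespace PkBL

/-- a point of `A` which strictly maximizes a linear functional on `A` is extreme -/
lemma extreme_of_lt {X : Type*} [AddCommGroup X] [Module ℝ X] (A : Set X) (x0 : X)
    (hx0 : x0 ∈ A) (l : X →ₗ[ℝ] ℝ) (h : ∀ y ∈ A, y ≠ x0 → l y < l x0) :
    x0 ∈ (convexHull ℝ A).extremePoints ℝ := by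
  have hH : convexHull ℝ A ⊆ {z | l z < l x0 ∨ z = x0} := by
    apply convexHull_min
    · intro y hy
      by_cases hyx : y = x0
      · exact Or.inr hyx
      · exact Or.inl (h y hy hyx)
    · intro z1 h1 z2 h2 a b ha hb hab
      rcases eq_or_lt_of_le ha with ha0 | ha0
      · have hb1 : b = 1 := by linarith
        rw [← ha0, hb1, zero_smul, one_smul, zero_add]
        exact h2
      rcases eq_or_lt_of_le hb with hb0 | hb0
      · have ha1 : a = 1 := by linarith
        rw [← hb0, ha1, zero_smul, one_smul, add_zero]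
        exact h1
      rcases h1 with h1 | h1
      · left
        rw [map_add, map_smul, map_smul, smul_eq_mul, smul_eq_mul]
        have h2' : l z2 ≤ l x0 := by
          rcases h2 with h2 | h2
          · exact h2.le
          · rw [h2]
        have e1 : l x0 = a * l x0 + b * l x0 := by rw [← add_mul, hab, one_mul]
        rw [e1]
        have := mul_lt_mul_of_pos_left h1 ha0
        have := mul_le_mul_of_nonneg_left h2' hb
        linarith
      · rcases h2 with h2 | h2
        · left
          rw [map_add, map_smul, map_smul, smul_eq_mul, smul_eq_mul, h1]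
          have e1 : l x0 = a * l x0 + b * l x0 := by rw [← add_mul, hab, one_mul]
          have := mul_lt_mul_of_pos_left h2 hb0
          linarith
        · right
          rw [h1, h2, ← add_smul, hab, one_smul]
  rw [mem_extremePoints]
  refine ⟨subset_convexHull ℝ A hx0, ?_⟩
  rintro z1 hz1 z2 hz2 ⟨a, b, ha, hb, hab, habz⟩
  have h1 := hH hz1
  have h2 := hH hz2
  have h1' : l z1 ≤ l x0 := by
    rcases h1 with h1 | h1
    · exact h1.le
    · rw [h1]
  have h2' : l z2 ≤ l x0 := by
    rcases h2 with h2 | h2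
    · exact h2.le
    · rw [h2]
  have hl : a * l z1 + b * l z2 = l x0 := by
    rw [← habz, map_add, map_smul, map_smul, smul_eq_mul, smul_eq_mul]
  have e1 : l x0 = a * l x0 + b * l x0 := by rw [← add_mul, hab, one_mul]
  constructor
  · rcases h1 with h1 | h1
    · exfalso
      have := mul_lt_mul_of_pos_left h1 ha
      have := mul_le_mul_of_nonneg_left h2' hb.le
      linarith
    · exact h1
  · rcases h2 with h2 | h2
    · exfalso
      have := mul_lt_mul_of_pos_left h2 hb
      have := mul_le_mul_of_nonneg_left h1' ha.le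
      linarith
    · exact h2

section pts

variable {ι : Type} [DecidableEq ι] {a : ℕ} {b : ι → ℕ} (c : ι → Fin a → ℝ)
    (s : (i : ι) → Fin (b i + 1) → Fin (b i) → ℝ)

lemma pt_inl (i : ι) (α : Fin (b i + 1)) (k : Fin a) : pt c s ⟨i, α⟩ (Sum.inl k) = c i k := rfl

lemma pt_same (i : ι) (α : Fin (b i + 1)) (k : Fin (b i)) :
    pt c s ⟨i, α⟩ (Sum.inr ⟨i, k⟩) = s i α k := by
  simp [pt]

lemma pt_ne (i j : ι) (h : i ≠ j) (α : Fin (b i + 1)) (k : Fin (b j)) :
    pt c s ⟨i, α⟩ (Sum.inr ⟨j, k⟩) = 0 := by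
  simp [pt, h]

variable [Fintype ι]

lemma sq_same (i : ι) (α β : Fin (b i + 1)) :
    ∑ k, (pt c s ⟨i, α⟩ k - pt c s ⟨i, β⟩ k) ^ 2 = ∑ k, (s i α k - s i β k) ^ 2 := by
  rw [Fintype.sum_sum_type, Fintype.sum_sigma]
  have h1 : ∑ k : Fin a, (pt c s ⟨i, α⟩ (Sum.inl k) - pt c s ⟨i, β⟩ (Sum.inl k)) ^ 2 = 0 := by
    simp [pt_inl]
  rw [h1, zero_add, Finset.sum_eq_single i]
  · simp only [pt_same]
  · intro j _ hj
    simp [pt_ne c s i j (Ne.symm hj)]
  · intro h
    exact absurd (Finset.mem_univ i) h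

lemma sq_ne (i j : ι) (hij : i ≠ j) (α : Fin (b i + 1)) (β : Fin (b j + 1)) :
    ∑ k, (pt c s ⟨i, α⟩ k - pt c s ⟨j, β⟩ k) ^ 2 =
      ∑ k, (c i k - c j k) ^ 2 + (∑ k, (s i α k) ^ 2 + ∑ k, (s j β k) ^ 2) := by
  rw [Fintype.sum_sum_type, Fintype.sum_sigma]
  congr 1
  have h2 : ∀ x : ι, ∑ k : Fin (b x), (pt c s ⟨i, α⟩ (Sum.inr ⟨x, k⟩) -
      pt c s ⟨j, β⟩ (Sum.inr ⟨x, k⟩)) ^ 2 =
      (if x = i then ∑ k, (s i α k) ^ 2 else 0) + (if x = j then ∑ k, (s j β k) ^ 2 else 0) := by
    intro x
    by_cases hxi : x = i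
    · subst hxi
      rw [if_pos rfl, if_neg hij, add_zero]
      refine Finset.sum_congr rfl (fun k _ => ?_)
      rw [pt_same, pt_ne c s j x (Ne.symm hij), sub_zero]
    · by_cases hxj : x = j
      · subst hxj
        rw [if_neg hxi, if_pos rfl, zero_add]
        refine Finset.sum_congr rfl (fun k _ => ?_)
        rw [pt_same, pt_ne c s i x hij, zero_sub, neg_sq]
      · rw [if_neg hxi, if_neg hxj, add_zero]
        refine Finset.sum_eq_zero (fun k _ => ?_)
        rw [pt_ne c s i x (Ne.symm hxi), pt_ne c s j x (Ne.symm hxj)]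
        norm_num
  rw [Finset.sum_congr rfl (fun x _ => h2 x), Finset.sum_add_distrib]
  simp

/-- the functional of the class `i` and the number `α` -/
noncomputable def fn (i : ι) (α : Fin (b i + 1)) : ((Fin a ⊕ (Σ i, Fin (b i))) → ℝ) →ₗ[ℝ] ℝ where
  toFun v := ∑ k : Fin (b i), v (Sum.inr ⟨i, k⟩) * s i α k
  map_add' v w := by simp [add_mul, Finset.sum_add_distrib]
  map_smul' r v := by simp [Finset.mul_sum, mul_assoc]

lemma fn_apply (i : ι) (α : Fin (b i + 1)) (v : (Fin a ⊕ (Σ i, Fin (b i))) → ℝ) :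
    fn s i α v = ∑ k : Fin (b i), v (Sum.inr ⟨i, k⟩) * s i α k := rfl

lemma fn_lt (hb : ∀ i, 1 ≤ b i)
    (hd : ∀ i (α β : Fin (b i + 1)), α ≠ β → ∑ k, (s i α k - s i β k) ^ 2 = 1)
    (hn : ∀ i (α : Fin (b i + 1)), ∑ k, (s i α k) ^ 2 = (b i : ℝ) / (2 * ((b i : ℝ) + 1)))
    (x y : Σ i, Fin (b i + 1)) (hxy : y ≠ x) :
    fn s x.1 x.2 (pt c s y) < fn s x.1 x.2 (pt c s x) := by
  obtain ⟨i, α⟩ := x
  obtain ⟨j, β⟩ := y
  have hr : fn s i α (pt c s ⟨i, α⟩) = (b i : ℝ) / (2 * ((b i : ℝ) + 1)) := by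
    rw [fn_apply, ← hn i α]
    refine Finset.sum_congr rfl (fun k _ => ?_)
    rw [pt_same]; ring
  have hbi : (1 : ℝ) ≤ b i := by exact_mod_cast hb i
  show fn s i α (pt c s ⟨j, β⟩) < fn s i α (pt c s ⟨i, α⟩)
  rw [hr]
  by_cases hij : j = i
  · subst hij
    have hne : α ≠ β := by
      rintro rfl
      exact hxy rfl
    have e1 : fn s j α (pt c s ⟨j, β⟩) = ∑ k, s j β k * s j α k := by
      rw [fn_apply]
      refine Finset.sum_congr rfl (fun k _ => ?_)
      rw [pt_same]
    have e2 : ∑ k, (s j α k - s j β k) ^ 2 =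
        ∑ k, (s j α k) ^ 2 + ∑ k, (s j β k) ^ 2 - 2 * ∑ k, s j β k * s j α k := by
      rw [Finset.mul_sum, ← Finset.sum_add_distrib, ← Finset.sum_sub_distrib]
      refine Finset.sum_congr rfl (fun k _ => ?_)
      ring
    rw [hd j α β hne, hn j α, hn j β] at e2
    rw [e1]
    linarith
  · have e1 : fn s i α (pt c s ⟨j, β⟩) = 0 := by
      rw [fn_apply]
      refine Finset.sum_eq_zero (fun k _ => ?_)
      rw [pt_ne c s j i hij, zero_mul]
    rw [e1]
    positivity

end pts

/-- coordinates of Euclidean space -/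
lemma hull_ofLp {κ κ' : Type} [Fintype κ] (p : κ' → EuclideanSpace ℝ κ) :
    convexHull ℝ (range fun x => (p x).ofLp) =
      (PiLp.continuousLinearEquiv 2 ℝ fun _ : κ => ℝ) '' convexHull ℝ (range p) := by
  have h := (PiLp.continuousLinearEquiv 2 ℝ fun _ : κ => ℝ).toLinearEquiv.toLinearMap.image_convexHull
    (range p)
  have h2 : (PiLp.continuousLinearEquiv 2 ℝ fun _ : κ => ℝ).toLinearEquiv.toLinearMap '' (range p) =
      range fun x => (p x).ofLp := by
    rw [← range_comp]
    rfl
  rw [h2] at h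
  exact h.symm

lemma vol_ofLp {κ κ' : Type} [Fintype κ] (p : κ' → EuclideanSpace ℝ κ) :
    volume (convexHull ℝ (range fun x => (p x).ofLp)) = volume (convexHull ℝ (range p)) := by
  have hc : Convex ℝ (convexHull ℝ (range fun x => (p x).ofLp)) := convex_convexHull _ _
  have h1 := (PiLp.volume_preserving_ofLp κ).measure_preimage (hc.nullMeasurableSet volume)
  rw [← h1]
  congr 1
  rw [hull_ofLp]
  exact preimage_image_eq _ (PiLp.continuousLinearEquiv 2 ℝ fun _ : κ => ℝ).injective

lemma int_ofLp {κ κ' : Type} [Fintype κ] (p : κ' → EuclideanSpace ℝ κ) :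
    interior (convexHull ℝ (range fun x => (p x).ofLp)) =
      (PiLp.continuousLinearEquiv 2 ℝ fun _ : κ => ℝ) '' interior (convexHull ℝ (range p)) := by
  rw [hull_ofLp]
  exact ((PiLp.continuousLinearEquiv 2 ℝ fun _ : κ => ℝ).toHomeomorph.image_interior _).symm

theorem thm (hBV : G_BV) (hRS : G_RS) : G_BL := by
  classical
  intro ι _ _ a b c d n hb hcd hint hd hn
  choose S hS1 hS2 hS3 hS4 hS5 using hRS
  set c' : ι → Fin a → ℝ := fun i => (c i).ofLp with hc'
  set s' : (i : ι) → Fin (b i + 1) → Fin (b i) → ℝ := fun i α => (S (b i) α).ofLp with hs'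
  -- properties of the simplices
  have hs1 : ∀ i (α β : Fin (b i + 1)), α ≠ β → ∑ k, (s' i α k - s' i β k) ^ 2 = 1 := by
    intro i α β hαβ
    have h := hS1 (b i) α β hαβ
    rw [EuclideanSpace.dist_eq, Real.sqrt_eq_one] at h
    rw [← h]
    refine Finset.sum_congr rfl (fun k _ => ?_)
    rw [Real.dist_eq, sq_abs]
  have hs2 : ∀ i (α : Fin (b i + 1)), ∑ k, (s' i α k) ^ 2 =
      (b i : ℝ) / (2 * ((b i : ℝ) + 1)) := by
    intro i α
    rw [← hS3 (b i) α, EuclideanSpace.real_norm_sq_eq]
  have hs3 : ∀ i, ∑ α, s' i α = 0 := by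
    intro i
    have h := congrArg (PiLp.continuousLinearEquiv 2 ℝ fun _ : Fin (b i) => ℝ) (hS2 (b i))
    rw [map_sum, map_zero] at h
    exact h
  have hs4 : ∀ i, (0 : Fin (b i) → ℝ) ∈ interior (convexHull ℝ (range (s' i))) := by
    intro i
    have h : interior (convexHull ℝ (range (s' i))) = _ := int_ofLp (S (b i))
    rw [h]
    exact ⟨0, hS4 (b i), map_zero _⟩
  have hc4 : (interior (convexHull ℝ (range c'))).Nonempty := by
    have h : interior (convexHull ℝ (range c')) = _ := int_ofLp c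
    rw [h]
    exact hint.image _
  have hvS : ∀ i, volume (convexHull ℝ (range (s' i))) = volume (convexHull ℝ (range (S (b i)))) :=
    fun i => vol_ofLp (S (b i))
  have hvc : volume (convexHull ℝ (range c')) = volume (convexHull ℝ (range c)) := vol_ofLp c
  have hvol := hBV ι a b c' s' hs3 hs4 hc4
  -- the transport to Euclidean space
  have hcard : Fintype.card (Fin a ⊕ (Σ i, Fin (b i))) = d := by
    rw [hd]; simp [Fintype.card_sum, Fintype.card_sigma]
  let e : (Fin a ⊕ (Σ i, Fin (b i))) ≃ Fin d := Fintype.equivFinOfCardEq hcard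
  let Ψ : EuclideanSpace ℝ (Fin a ⊕ (Σ i, Fin (b i))) ≃ₗᵢ[ℝ] E d :=
    LinearIsometryEquiv.piLpCongrLeft 2 ℝ ℝ e
  let p : (Σ i, Fin (b i + 1)) → EuclideanSpace ℝ (Fin a ⊕ (Σ i, Fin (b i))) :=
    fun x => WithLp.toLp 2 (pt c' s' x)
  let q : (Σ i, Fin (b i + 1)) → E d := fun x => Ψ (p x)
  have hp : ∀ x, (p x).ofLp = pt c' s' x := fun x => rfl
  have hdist : ∀ x y, dist (q x) (q y) = Real.sqrt (∑ k, (pt c' s' x k - pt c' s' y k) ^ 2) := by
    intro x y
    rw [show dist (q x) (q y) = dist (p x) (p y) from Ψ.dist_map (p x) (p y),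
      EuclideanSpace.dist_eq]
    congr 1
    refine Finset.sum_congr rfl (fun k _ => ?_)
    rw [Real.dist_eq, sq_abs]
  have hdist1 : ∀ x y, dist (q x) (q y) ≤ 1 := by
    rintro ⟨i, α⟩ ⟨j, β⟩
    rw [hdist]
    apply Real.sqrt_le_one.mpr
    by_cases hij : i = j
    · subst hij
      rw [sq_same]
      by_cases hαβ : α = β
      · subst hαβ; simp
      · rw [hs1 i α β hαβ]
    · rw [sq_ne c' s' i j hij, hs2, hs2]
      have h1 := hcd i j hij
      rw [EuclideanSpace.dist_eq, Real.sq_sqrt (by positivity)] at h1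
      have h2 : ∑ k, (c' i k - c' j k) ^ 2 = ∑ k, dist ((c i).ofLp k) ((c j).ofLp k) ^ 2 := by
        refine Finset.sum_congr rfl (fun k _ => ?_)
        rw [Real.dist_eq, sq_abs]
      rw [h2]
      have h3 : (b i : ℝ) / (2 * ((b i : ℝ) + 1)) = 1 / 2 - 1 / (2 * ((b i : ℝ) + 1)) := by
        have : (0 : ℝ) < (b i : ℝ) + 1 := by positivity
        field_simp
        ring
      have h4 : (b j : ℝ) / (2 * ((b j : ℝ) + 1)) = 1 / 2 - 1 / (2 * ((b j : ℝ) + 1)) := by
        have : (0 : ℝ) < (b j : ℝ) + 1 := by positivity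
        field_simp
        ring
      rw [h3, h4]
      linarith
  set P : Set (E d) := convexHull ℝ (range q) with hP
  have hfin : (range q).Finite := finite_range q
  have hcomp : IsCompact P := hfin.isCompact_convexHull ℝ
  have hconv : Convex ℝ P := convex_convexHull _ _
  -- volume of P
  have hPp : P = Ψ '' convexHull ℝ (range p) := by
    have h := Ψ.toLinearEquiv.toLinearMap.image_convexHull (range p)
    have h2 : Ψ.toLinearEquiv.toLinearMap '' (range p) = range q := by
      rw [← range_comp]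
      rfl
    rw [h2] at h
    exact h.symm
  have hvP : volume P = volume (convexHull ℝ (range (pt c' s'))) := by
    have h1 : volume (Ψ ⁻¹' P) = volume P :=
      Ψ.measurePreserving.measure_preimage (hconv.nullMeasurableSet volume)
    have h2 : Ψ ⁻¹' P = convexHull ℝ (range p) := by
      rw [hPp]
      exact preimage_image_eq _ Ψ.injective
    rw [← h1, h2]
    exact (vol_ofLp p).symm
  -- the formula
  have hform : ((d.factorial : ℝ) * (volume P).toReal) ^ 2 * 2 ^ d =
      ((a.factorial : ℝ) * (volume (convexHull ℝ (range c))).toReal) ^ 2 * 2 ^ a *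
        ∏ i, ((b i : ℝ) + 1) := by
    have h1 := congrArg ENNReal.toReal hvol
    rw [ENNReal.toReal_mul, ENNReal.toReal_mul, ENNReal.toReal_mul, ENNReal.toReal_prod,
      ENNReal.toReal_natCast, ENNReal.toReal_natCast, ← hvP, hvc, ← hd] at h1
    have h2 : ∀ i, (((b i).factorial : ENNReal) * volume (convexHull ℝ (range (s' i)))).toReal =
        ((b i).factorial : ℝ) * (volume (convexHull ℝ (range (S (b i))))).toReal := by
      intro i
      rw [ENNReal.toReal_mul, ENNReal.toReal_natCast, hvS]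
    rw [Finset.prod_congr rfl (fun i _ => h2 i)] at h1
    rw [h1, mul_pow, ← Finset.prod_pow, Finset.prod_congr rfl (fun i _ => hS5 (b i)),
      Finset.prod_div_distrib, Finset.prod_pow_eq_pow_sum]
    rw [show (2 : ℝ) ^ d = 2 ^ a * 2 ^ (∑ i, b i) by rw [hd, pow_add]]
    have h3 : (2 : ℝ) ^ (∑ i, b i) ≠ 0 := by positivity
    field_simp
  have hvcpos : 0 < (volume (convexHull ℝ (range c))).toReal := by
    apply ENNReal.toReal_pos
    · exact (Measure.measure_pos_of_nonempty_interior volume hint).ne'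
    · exact ((finite_range c).isCompact_convexHull ℝ).measure_lt_top.ne
  have hvPpos : volume P ≠ 0 := by
    intro h0
    rw [h0] at hform
    have h1 : (0 : ℝ) < ((a.factorial : ℝ) *
        (volume (convexHull ℝ (range c))).toReal) ^ 2 * 2 ^ a * ∏ i, ((b i : ℝ) + 1) := by
      have : (0 : ℝ) < ∏ i, ((b i : ℝ) + 1) := Finset.prod_pos (fun i _ => by positivity)
      have h2 : (0 : ℝ) < a.factorial := by exact_mod_cast a.factorial_pos
      positivity
    rw [← hform] at h1
    simp at h1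
  have hPint : (interior P).Nonempty := by
    by_contra hne
    rw [not_nonempty_iff_eq_empty] at hne
    apply hvPpos
    have h1 : P ⊆ frontier P := by
      rw [frontier, hne, sdiff_empty]
      exact subset_closure
    exact measure_mono_null h1 (hconv.addHaar_frontier volume)
  -- extreme points
  have hlt := fn_lt c' s' hb hs1 hs2
  have hinj : Function.Injective (pt c' s') := by
    intro x y hxy
    by_contra hne
    have := hlt x y (Ne.symm hne)
    rw [hxy] at this
    exact lt_irrefl _ this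
  have hext : (convexHull ℝ (range (pt c' s'))).extremePoints ℝ = range (pt c' s') := by
    apply Subset.antisymm extremePoints_convexHull_subset
    rintro _ ⟨x, rfl⟩
    refine extreme_of_lt _ _ (mem_range_self x) (fn s' x.1 x.2) ?_
    rintro _ ⟨y, rfl⟩ hne
    exact hlt x y (fun h => hne (by rw [h]))
  let TT : ((Fin a ⊕ (Σ i, Fin (b i))) → ℝ) ≃ₗ[ℝ] E d :=
    (WithLp.linearEquiv 2 ℝ ((Fin a ⊕ (Σ i, Fin (b i))) → ℝ)).symm.trans Ψ.toLinearEquiv
  have hTTp : ∀ x, TT (pt c' s' x) = q x := fun x => rfl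
  have hPT : P = TT '' convexHull ℝ (range (pt c' s')) := by
    have h := TT.toLinearMap.image_convexHull (range (pt c' s'))
    have h2 : TT.toLinearMap '' (range (pt c' s')) = range q := by
      rw [← range_comp]
      rfl
    rw [h2] at h
    exact h.symm
  have hextP : P.extremePoints ℝ = TT '' range (pt c' s') := by
    rw [hPT, ← image_extremePoints TT, hext]
  have hncard : (P.extremePoints ℝ).ncard = n := by
    rw [hextP, ncard_image_of_injective _ TT.injective, ← image_univ,
      ncard_image_of_injective _ hinj, ncard_univ, Nat.card_eq_fintype_card]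
    rw [hn]
    simp [Fintype.card_sigma]
  refine ⟨P, ⟨⟨range q, hfin, rfl⟩, hPint, hncard, ?_⟩, hform⟩
  -- diameter
  rw [hP, convexHull_diam]
  apply le_antisymm
  · apply Metric.diam_le_of_forall_dist_le zero_le_one
    rintro _ ⟨x, rfl⟩ _ ⟨y, rfl⟩
    exact hdist1 x y
  · obtain ⟨i⟩ := ‹Nonempty ι›
    have hbi := hb i
    have h01 : (⟨0, by omega⟩ : Fin (b i + 1)) ≠ ⟨1, by omega⟩ := by
      intro h
      have := congrArg Fin.val h
      simp at this
    have h1 : dist (q ⟨i, ⟨0, by omega⟩⟩) (q ⟨i, ⟨1, by omega⟩⟩) = 1 := by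
      rw [hdist, sq_same, hs1 i _ _ h01, Real.sqrt_one]
    rw [← h1]
    exact Metric.dist_le_diam_of_mem hfin.isBounded (mem_range_self _) (mem_range_self _)

end PkBL

end Pool.Agent.Helper77.Poly
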